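import Pool.Agent.R462.EU.Main

/-!
# The direction of the vorticity, the kinetic energy and the rate of blow-up of Euler solutions

Let a `C²` periodic solution of the Euler equations become singular at the time `T`. Assume that at
almost every time `t` near `T`, at ONE point `x` of maximal vorticity, the direction of the vorticity
is kept with a Hölder exponent `β` at a length scale `L(t)`:
`|ω(x) × ω(y)| ≤ (|x - y| / L(t)) ^ β |ω(x)|²` for all `y`. The velocity is not assumed to be bounded;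
only the conserved kinetic energy `E` (in any uniformly moving frame) is used. Then the maximum
`M(s)` of the vorticity satisfies, with `γ = 5 / (2 β + 5)`,

`(M(s)² + E) ^ (-γ / 2) ≤ C E ^ (β / (2 β + 5)) ∫_s^T L(t) ^ (-β γ) dt`.

For the critical length scale `L(t) = K (T - t) ^ (2 / 5)` this gives
`M(s) ≥ c K ^ β E ^ (-β / 5) / (T - s)`: the singularity is not of Type I with a small constant. Hence
before a singularity of Type I, `M(t) ≤ C₁ / (T - t)`, the direction of the vorticity varies, near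
every point of maximal vorticity, on the length scale `C' (T - t) ^ (2 / 5)`.

Library: helper786 (`W786`: formula for the averages of the stretching rate, maximum principle),
helper708 (`H708R2`: uniqueness, period cells).
-/

set_option autoImplicit false

open MeasureTheory Set Filter
open scoped Topology

namespace Pool.Agent.Results.MP_b0497c_an.DirectionEnergyScale

open Pool.Agent.H708R2.EulerSign Pool.Agent.H708R2.EulerTypeI Pool.Agent.W786.Dir
  Pool.Agent.W786.Max Pool.Agent.R462.EU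

/-- The kinetic energy (without the factor `1 / 2`) on `[-π, π]³` of the field `v` relative to the
constant velocity `c`. -/
noncomputable def energy (v : V → V) (c : V) : ℝ :=
  ∫ x in Icc (fun _ : Fin 3 => -Real.pi) (fun _ => Real.pi), (v x - c) ⬝ᵥ (v x - c)

/-- For every `β > 0` there is a constant `C > 0` with the following properties, for all `C²`
periodic solutions `(u, p)` of the Euler equations on `[0, T)` and all `E > 0` such that the energy of
`u(0)` relative to some constant velocity is at most `E`. Let `γ = gam β = 5 / (2 β + 5)`.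
(1) If `0 < L(t) ≤ 1` on `(s, T)`, `L ^ (-β γ)` is integrable there, and for almost every `t` in
`(s, T)` the vorticity is aligned at one point of maximal vorticity, with the exponent `β` and the
length `L(t)`, and if the Beale-Kato-Majda integral is infinite, then
`1 ≤ C E ^ ((1 - γ) / 2) (M ^ 2 + E) ^ (γ / 2) ∫_s^T L ^ (-β γ)` with the maximum `M` of the vorticity
at the time `s`.
(2) If this holds near `T` with `L(t) = K (T - t) ^ (2 / 5)`, and the Beale-Kato-Majda integral is
infinite, then `K ^ β ≤ C E ^ (β / 5) (T - s) M(s)` for all `s` near `T`.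
(3) If it holds near `T` with `L(t) = K (T - t) ^ (2 / 5)`, the vorticity is at most `C₁ / (T - t)`
near `T`, and `C E ^ (β / 5) C₁ < K ^ β`, then the Beale-Kato-Majda integral is finite. -/
theorem result (β : ℝ) (hβ : 0 < β) : ∃ C : ℝ, 0 < C ∧
    (∀ (T E s : ℝ) (u : ℝ → V → V) (p : ℝ → V → ℝ) (c : V) (L : ℝ → ℝ),
      IsC2Solution T u p → s ∈ Ico 0 T → 0 < E → energy (u 0) c ≤ E →
      (∀ t ∈ Ioo s T, 0 < L t ∧ L t ≤ 1) →
      IntegrableOn (fun t => L t ^ (-(β * gam β))) (Ioo s T) →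
      (∀ᵐ t, t ∈ Ioo s T → ∃ x, IsMaxPt u t x ∧ Aligned (u t) x (L t) β) →
      ¬ BKMFinite T u → ∀ x, IsMaxPt u s x →
      1 ≤ C * E ^ ((1 - gam β) / 2) * (nrm (vort (u s) x) ^ 2 + E) ^ (gam β / 2)
        * ∫ t in Ioo s T, L t ^ (-(β * gam β))) ∧
    (∀ (T E K : ℝ) (u : ℝ → V → V) (p : ℝ → V → ℝ) (c : V),
      0 < T → IsC2Solution T u p → 0 < E → 0 < K → energy (u 0) c ≤ E →
      (∃ t₀ < T, ∀ᵐ t, t ∈ Ioo t₀ T →
        ∃ x, IsMaxPt u t x ∧ Aligned (u t) x (K * (T - t) ^ (2 / 5 : ℝ)) β) →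
      ¬ BKMFinite T u →
      ∀ᶠ s in 𝓝[<] T, ∀ x, IsMaxPt u s x →
        K ^ β ≤ C * E ^ (β / 5) * ((T - s) * nrm (vort (u s) x))) ∧
    (∀ (T E K C₁ : ℝ) (u : ℝ → V → V) (p : ℝ → V → ℝ) (c : V),
      0 < T → IsC2Solution T u p → 0 < E → 0 < K → energy (u 0) c ≤ E →
      (∃ t₀ < T, ∀ᵐ t, t ∈ Ioo t₀ T →
        ∃ x, IsMaxPt u t x ∧ Aligned (u t) x (K * (T - t) ^ (2 / 5 : ℝ)) β) →
      (∀ᶠ t in 𝓝[<] T, ∀ x, (T - t) * nrm (vort (u t) x) ≤ C₁) →
      C * E ^ (β / 5) * C₁ < K ^ β → BKMFinite T u) := by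
  have hg := gam_pos hβ
  have hK0 := K0_pos hβ
  have hK1 : 0 < K1 β := by unfold K1; positivity
  have hC : 0 < max (gam β * K0 β) (K1 β) := lt_max_of_lt_right hK1
  have part2 : ∀ (T E K : ℝ) (u : ℝ → V → V) (p : ℝ → V → ℝ) (c : V),
      0 < T → IsC2Solution T u p → 0 < E → 0 < K → energy (u 0) c ≤ E →
      (∃ t₀ < T, ∀ᵐ t, t ∈ Ioo t₀ T →
        ∃ x, IsMaxPt u t x ∧ Aligned (u t) x (K * (T - t) ^ (2 / 5 : ℝ)) β) →
      ¬ BKMFinite T u →
      ∀ᶠ s in 𝓝[<] T, ∀ x, IsMaxPt u s x →
        K ^ β ≤ max (gam β * K0 β) (K1 β) * E ^ (β / 5) * ((T - s) * nrm (vort (u s) x)) := by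
    intro T E K u p c hT h hE hK hE0 hal hsing
    filter_upwards [critical β hβ T E K u p c hT h hE hK hE0 hal hsing, self_mem_nhdsWithin]
      with s hs hsT x hx
    refine (hs x hx).trans ?_
    have h1 : 0 < E ^ (β / 5) := Real.rpow_pos_of_pos hE _
    have h2 : 0 ≤ T - s := sub_nonneg.2 (le_of_lt hsT)
    have h3 := nrm_nonneg (vort (u s) x)
    have h4 : K1 β ≤ max (gam β * K0 β) (K1 β) := le_max_right _ _
    gcongr
  refine ⟨max (gam β * K0 β) (K1 β), hC, ?_, part2, ?_⟩
  · intro T E s u p c L h hs hE hE0 hL hi hal hsing x hx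
    refine (lower β hβ T E s u p c L h hs hE hE0 hL hi hal hsing x hx).trans ?_
    have h1 : 0 < E ^ ((1 - gam β) / 2) := Real.rpow_pos_of_pos hE _
    have h2 : 0 < (nrm (vort (u s) x) ^ 2 + E) ^ (gam β / 2) :=
      Real.rpow_pos_of_pos (by positivity) _
    have h3 : 0 ≤ ∫ t in Ioo s T, L t ^ (-(β * gam β)) :=
      setIntegral_nonneg measurableSet_Ioo fun t ht => (Real.rpow_pos_of_pos (hL t ht).1 _).le
    have h4 : gam β * K0 β ≤ max (gam β * K0 β) (K1 β) := le_max_left _ _
    gcongr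
  · intro T E K C₁ u p c hT h hE hK hE0 hal hI hlt
    by_contra hsing
    have h1 := part2 T E K u p c hT h hE hK hE0 hal hsing
    have h2 : ∀ᶠ s in 𝓝[<] T, s ∈ Ico 0 T := Ico_mem_nhdsLT hT
    obtain ⟨s, hs1, hs2, hs3⟩ := (h1.and (hI.and h2)).exists
    obtain ⟨x, hx⟩ := exists_isMaxPt h.sol hs3
    have h3 := hs1 x hx
    have h4 := hs2 x
    have h5 : 0 < E ^ (β / 5) := Real.rpow_pos_of_pos hE _
    have h6 : max (gam β * K0 β) (K1 β) * E ^ (β / 5) * ((T - s) * nrm (vort (u s) x))
        ≤ max (gam β * K0 β) (K1 β) * E ^ (β / 5) * C₁ :=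
      mul_le_mul_of_nonneg_left h4 (by positivity)
    linarith

end Pool.Agent.Results.MP_b0497c_an.DirectionEnergyScale
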