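import Pool.Agent.R462.EU.Rate
import Pool.Agent.W786.Max4

/-!
# Growth of the maximum of the vorticity: superlinear rates, conservation of energy
-/

set_option autoImplicit false

open MeasureTheory Set Filter
open scoped ENNReal NNReal Topology

namespace Pool.Agent.R462.EU

open Pool.Agent.H708R2.EulerSign Pool.Agent.H708R2.EulerTypeI Pool.Agent.W786.Dir
  Pool.Agent.W786.Max

variable {T : ℝ} {u : ℝ → V → V} {p : ℝ → V → ℝ}

/-- The kinetic energy relative to a constant velocity does not increase. -/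
lemma energy_le (h : IsClassicalSolution (Ico 0 T) u p) (c : V) {t : ℝ} (ht : t ∈ Ico 0 T) :
    ∫ x in Dom, sq3 (u t x - c) ≤ ∫ x in Dom, sq3 (u 0 x - c) := by
  have hu : ContDiff ℝ 1 (fun _ : ℝ × V => c) := contDiff_const
  have hup : ∀ _ : ℝ, Periodic3 (fun _ : V => c) := fun _ _ _ => rfl
  have hgz : ∀ x, grad (fun _ : V => c) x = 0 := by
    intro x
    ext i j
    simp [grad]
  have hudiv : ∀ (_ : ℝ) x, divergence (fun _ : V => c) x = 0 := by
    intro _ x
    simp [divergence, hgz]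
  have hueq : ∀ (t : ℝ) (x : V) (i : Fin 3), deriv (fun _ : ℝ => c i) t
      + ∑ j, c j * fderiv ℝ (fun _ : V => c) x (Pi.single j 1) i = 0 := by
    intro t x i
    simp
  have hK : ∀ t ∈ Ico (0 : ℝ) T, ∀ (x : V) (i j : Fin 3), |grad (fun _ : V => c) x i j| ≤ 0 := by
    intro t _ x i j
    rw [hgz]
    simp
  have hcont := en_continuousOn (u := fun _ _ => c) h hu
  have hanti : AntitoneOn (en u fun _ _ => c) (Ico 0 T) := by
    have hder : ∀ s ∈ interior (Ico 0 T), HasDerivAt (en u fun _ _ => c)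
        (∫ x in Dom, dS u (fun _ _ => c) s x) s := by
      intro s hs
      rw [interior_Ico] at hs
      exact en_hasDerivAt (u := fun _ _ => c) h hu hs
    refine antitoneOn_of_deriv_nonpos (convex_Ico _ _) hcont ?_ ?_
    · intro s hs
      exact (hder s hs).differentiableAt.differentiableWithinAt
    · intro s hs
      rw [(hder s hs).deriv]
      rw [interior_Ico] at hs
      have h1 := (abs_le.1 (en_deriv_le (u := fun _ _ => c) h hu hup hudiv hueq hK hs)).2
      simpa using h1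
  exact hanti ⟨le_rfl, ht.1.trans_lt ht.2⟩ ht ht.1

/-- If the vorticity is bounded near the final time, the Beale-Kato-Majda integral is finite. -/
lemma bkm_of_bdd (h : IsClassicalSolution (Ico 0 T) u p) {s M : ℝ} (hs : s ∈ Ico 0 T)
    (hM : ∀ t ∈ Ico s T, ∀ x, nrm (vort (u t) x) ≤ M) : BKMFinite T u := by
  obtain ⟨W, hW0, hW⟩ := vort_bound h hs.2
  unfold BKMFinite
  have hle : ∀ t ∈ Ioo 0 T, (⨆ x, ENNReal.ofReal (nrm (vort (u t) x)))
      ≤ ENNReal.ofReal (max W M) := by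
    intro t ht
    refine iSup_le fun x => ENNReal.ofReal_le_ofReal ?_
    rcases le_total t s with hts | hst
    · exact ((hW t ⟨ht.1.le, hts⟩ x).1).trans (le_max_left _ _)
    · exact (hM t ⟨hst, ht.2⟩ x).trans (le_max_right _ _)
  refine (setLIntegral_mono' measurableSet_Ioo hle).trans_lt ?_
  rw [setLIntegral_const, Real.volume_Ioo]
  exact ENNReal.mul_lt_top ENNReal.ofReal_lt_top ENNReal.ofReal_lt_top

/-- Growth of the maximum of the vorticity with a superlinear rate. -/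
lemma growth_power (h : IsC2Solution T u p) {a b : ℝ} (ha : 0 ≤ a) (hab : a ≤ b) (hb : b < T)
    {E γ : ℝ} (hE : 0 < E) (hγ : 0 < γ) {ρ : ℝ → ℝ} (hρi : IntervalIntegrable ρ volume a b)
    (hρ0 : ∀ t ∈ Ioo a b, 0 ≤ ρ t)
    (hmax : ∀ᵐ t, t ∈ Ioo a b → ∃ x, IsMaxPt u t x ∧
      Pq u t x ≤ ρ t * (Wq u t x + E) ^ (γ / 2) * Wq u t x) :
    (Mx u a + E) ^ (-(γ / 2)) ≤ (Mx u b + E) ^ (-(γ / 2)) + γ * ∫ t in a..b, ρ t := by
  obtain ⟨C, hC0, hC⟩ := Mx_growth h hb
  have hpos : ∀ t, 0 < Mx u t + E := fun t => by have := Mx_nonneg (u := u) t; linarith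
  have h1 := growth_of_ae (L := fun t => -(Mx u t + E) ^ (-(γ / 2)))
    (C := E ^ (-(γ / 2)) * (γ * C)) (r := fun t => γ * ρ t) hab ?_ (hρi.const_mul γ) ?_
  · rw [intervalIntegral.integral_const_mul] at h1
    linarith
  · intro s hs t ht hst
    have h2 := hC s ⟨ha.trans hs.1, hs.2⟩ t ⟨ha.trans ht.1, ht.2⟩ hst
    have h3 : 1 ≤ Real.exp (2 * C * (t - s)) := Real.one_le_exp (by
      have : 0 ≤ t - s := by linarith
      positivity)
    have h4 : Mx u t + E ≤ (Mx u s + E) * Real.exp (2 * C * (t - s)) := by nlinarith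
    have h5 : ((Mx u s + E) * Real.exp (2 * C * (t - s))) ^ (-(γ / 2))
        ≤ (Mx u t + E) ^ (-(γ / 2)) :=
      Real.rpow_le_rpow_of_nonpos (hpos t) h4 (by linarith)
    rw [Real.mul_rpow (hpos s).le (Real.exp_pos _).le, ← Real.exp_mul] at h5
    have h6 : 1 - γ * C * (t - s) ≤ Real.exp (2 * C * (t - s) * -(γ / 2)) := by
      have := Real.add_one_le_exp (2 * C * (t - s) * -(γ / 2))
      linarith
    have h7 : (Mx u s + E) ^ (-(γ / 2)) ≤ E ^ (-(γ / 2)) :=
      Real.rpow_le_rpow_of_nonpos hE (by have := Mx_nonneg (u := u) s; linarith) (by linarith)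
    have h8 : 0 < (Mx u s + E) ^ (-(γ / 2)) := Real.rpow_pos_of_pos (hpos s) _
    have h9 : 0 ≤ γ * C * (t - s) := by
      have : 0 ≤ t - s := by linarith
      positivity
    show -(Mx u t + E) ^ (-(γ / 2)) - -(Mx u s + E) ^ (-(γ / 2)) ≤ _
    nlinarith [mul_le_mul_of_nonneg_left h6 h8.le, mul_le_mul_of_nonneg_right h7 h9]
  · filter_upwards [hmax] with t ht htI d hd
    obtain ⟨x, hx, hx2⟩ := ht htI
    have htT : t ∈ Ioo 0 T := ⟨ha.trans_lt htI.1, htI.2.trans hb⟩
    have hW0 := Wq_nonneg (u := u) t x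
    have h4 : 0 < Wq u t x + E := by linarith
    have hΦd : HasDerivAt (fun y : ℝ => -(y + E) ^ (-(γ / 2)))
        (-((-(γ / 2)) * (Wq u t x + E) ^ (-(γ / 2) - 1))) (Wq u t x) := by
      have h5 : HasDerivAt (fun y : ℝ => y + E) 1 (Wq u t x) :=
        (hasDerivAt_id (Wq u t x)).add_const E
      have h6 := (h5.rpow_const (p := -(γ / 2)) (Or.inl h4.ne')).neg
      refine h6.congr_deriv ?_
      ring
    have h2 := deriv_le h htT hx (Φ := fun y => -(y + E) ^ (-(γ / 2))) (by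
      intro y hy z _ hyz
      have hy0 : (0 : ℝ) ≤ y := hy
      show -(y + E) ^ (-(γ / 2)) ≤ -(z + E) ^ (-(γ / 2))
      exact neg_le_neg (Real.rpow_le_rpow_of_nonpos (by linarith) (by linarith) (by linarith)))
      hΦd hd
    refine h2.trans ?_
    have h3 := hρ0 t htI
    have h5 : vort (u t) x ⬝ᵥ (grad (u t) x).mulVec (vort (u t) x)
        ≤ ρ t * (Wq u t x + E) ^ (γ / 2) * Wq u t x := hx2
    set m := Wq u t x + E with hm
    have h6 : m ^ (-(γ / 2) - 1) = m ^ (-(γ / 2)) / m := by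
      rw [Real.rpow_sub h4, Real.rpow_one]
    have h7 : m ^ (-(γ / 2)) * m ^ (γ / 2) = 1 := by
      rw [← Real.rpow_add h4]
      simp
    have h8 : 0 < m ^ (-(γ / 2)) := Real.rpow_pos_of_pos h4 _
    have hWm : Wq u t x ≤ m := by linarith
    calc -(-(γ / 2) * m ^ (-(γ / 2) - 1)) * (2 * (vort (u t) x ⬝ᵥ (grad (u t) x).mulVec
          (vort (u t) x)))
        = γ * (m ^ (-(γ / 2)) / m) * (vort (u t) x ⬝ᵥ (grad (u t) x).mulVec (vort (u t) x)) := by
          rw [h6]; ring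
      _ ≤ γ * (m ^ (-(γ / 2)) / m) * (ρ t * m ^ (γ / 2) * Wq u t x) := by gcongr
      _ = γ * ρ t * (m ^ (-(γ / 2)) * m ^ (γ / 2)) * (Wq u t x / m) := by ring
      _ = γ * ρ t * (Wq u t x / m) := by rw [h7, mul_one]
      _ ≤ γ * ρ t * 1 := by
          have h9 : Wq u t x / m ≤ 1 := (div_le_one h4).2 hWm
          have : 0 ≤ γ * ρ t := by positivity
          exact mul_le_mul_of_nonneg_left h9 this
      _ = γ * ρ t := mul_one _

/-- Before a singularity the maximum of the vorticity is bounded below. -/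
theorem lower_power (h : IsC2Solution T u p) {s : ℝ} (hs : s ∈ Ico 0 T)
    {E γ : ℝ} (hE : 0 < E) (hγ : 0 < γ) {ρ : ℝ → ℝ} (hρi : IntegrableOn ρ (Ioo s T))
    (hρ0 : ∀ t ∈ Ioo s T, 0 ≤ ρ t)
    (hmax : ∀ᵐ t, t ∈ Ioo s T → ∃ x, IsMaxPt u t x ∧
      Pq u t x ≤ ρ t * (Wq u t x + E) ^ (γ / 2) * Wq u t x) (hsing : ¬ BKMFinite T u) :
    (Mx u s + E) ^ (-(γ / 2)) ≤ γ * ∫ t in Ioo s T, ρ t := by
  by_contra hcon
  push Not at hcon
  set η := (Mx u s + E) ^ (-(γ / 2)) - γ * ∫ t in Ioo s T, ρ t with hη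
  have hη0 : 0 < η := by linarith
  have hpos : ∀ t, 0 < Mx u t + E := fun t => by have := Mx_nonneg (u := u) t; linarith
  refine hsing (bkm_of_bdd h.sol hs (M := Real.sqrt (η ^ (-(2 / γ)))) fun t ht x => ?_)
  have hsub : Ioc s t ⊆ Ioo s T := fun r hr => ⟨hr.1, hr.2.trans_lt ht.2⟩
  have hi : IntervalIntegrable ρ volume s t :=
    (intervalIntegrable_iff_integrableOn_Ioc_of_le ht.1).2 (hρi.mono_set hsub)
  have h1 := growth_power h hs.1 ht.1 ht.2 hE hγ hi
    (fun r hr => hρ0 r ⟨hr.1, hr.2.trans ht.2⟩) (by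
      filter_upwards [hmax] with r hr hrI
      exact hr ⟨hrI.1, hrI.2.trans ht.2⟩)
  have h2 : ∫ r in s..t, ρ r ≤ ∫ r in Ioo s T, ρ r := by
    rw [intervalIntegral.integral_of_le ht.1]
    refine setIntegral_mono_set hρi ?_ hsub.eventuallyLE
    exact (ae_restrict_iff' measurableSet_Ioo).2 (Eventually.of_forall hρ0)
  have h3 : η ≤ (Mx u t + E) ^ (-(γ / 2)) := by
    have := mul_le_mul_of_nonneg_left h2 hγ.le
    linarith
  have h4 : Mx u t + E ≤ η ^ (-(2 / γ)) := by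
    have h5 : ((Mx u t + E) ^ (-(γ / 2))) ^ (-(2 / γ)) = Mx u t + E := by
      rw [← Real.rpow_mul (hpos t).le]
      have : -(γ / 2) * -(2 / γ) = 1 := by field_simp
      rw [this, Real.rpow_one]
    rw [← h5]
    exact Real.rpow_le_rpow_of_nonpos hη0 h3 (by
      have : 0 < 2 / γ := by positivity
      linarith)
  refine Real.le_sqrt_of_sq_le ?_
  rw [← Wq_eq]
  have h6 := Wq_le h.sol ⟨hs.1.trans ht.1, ht.2⟩ x
  linarith

end Pool.Agent.R462.EU
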