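import Pool.Agent.W786.Dir5
import Pool.Agent.H708R2.EulerModes.Main

/-!
# The stretching rate, the kinetic energy and the direction of the vorticity

A pointwise bound of the stretching rate of a periodic field of divergence zero in terms of its
kinetic energy and of the component of the vorticity orthogonal to the vorticity at the point.
-/

set_option autoImplicit false

open MeasureTheory Set Filter
open scoped ENNReal NNReal Topology Pointwise

namespace Pool.Agent.R462.EU

open Pool.Agent.H708R2.EulerSign Pool.Agent.H708R2.EulerTypeI Pool.Agent.W786.Dir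
  Pool.Agent.H708R2.EulerModes

variable {v : V → V}

lemma P_le_one (n : ℕ) (z : V) : P n z ≤ 1 := by
  unfold P
  refine pow_le_one₀ (le_max_right _ _) (max_le ?_ zero_le_one)
  have := dot_self_nonneg z
  linarith

/-- The average of the rate over a ball is bounded by the average of the velocity. -/
lemma A_far (hv : ContDiff ℝ 2 v) {x₀ e : V} (c : V) (he : nrm e ≤ 1) {r : ℝ} (hr : 0 < r) :
    |∫ z, P 3 z * rate v e (x₀ + r • z)|
      ≤ 6 / r * ∫ z, P 2 z * nrm (v (x₀ + r • z) - c) := by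
  have hvj : ∀ j, ContDiff ℝ 1 fun y => v y j := fun j =>
    (contDiff_pi.1 hv j).of_le (by norm_num)
  set w : V → ℝ := fun y => ∑ j, e j * v y j with hw
  have cw : ContDiff ℝ 1 w := ContDiff.sum fun j _ => contDiff_const.mul (hvj j)
  set δ : V → ℝ := fun z => w (x₀ + r • z) - e ⬝ᵥ c with hδ
  have cδ : ContDiff ℝ 1 δ := (comp_aff cw x₀ r).sub contDiff_const
  have dδ : ∀ z, fderiv ℝ δ z e = r * rate v e (x₀ + r • z) := by
    intro z
    have h1 : fderiv ℝ δ z = fderiv ℝ (fun z => w (x₀ + r • z)) z := fderiv_sub_const _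
    rw [h1, fderiv_comp_aff cw, smul_eq_mul]
    congr 1
    have h2 : HasFDerivAt v (fderiv ℝ v (x₀ + r • z)) (x₀ + r • z) :=
      ((hv.differentiable two_ne_zero) _).hasFDerivAt
    have h3 : HasFDerivAt w (∑ j, e j • ((ContinuousLinearMap.proj j : V →L[ℝ] ℝ) ∘L
        fderiv ℝ v (x₀ + r • z))) (x₀ + r • z) :=
      HasFDerivAt.fun_sum fun j _ => (hasFDerivAt_pi'.1 h2 j).const_mul (e j)
    rw [h3.fderiv]
    have h4 : fderiv ℝ v (x₀ + r • z) e = ∑ k, e k • fderiv ℝ v (x₀ + r • z) (Pi.single k 1) := by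
      conv_lhs => rw [show e = ∑ k, e k • (Pi.single k 1 : V) by
        ext i; simp [Finset.sum_apply, Pi.single_apply]]
      rw [map_sum]
      simp
    simp only [FunLike.coe_sum, Finset.sum_apply, FunLike.coe_smul, Pi.smul_apply,
      ContinuousLinearMap.comp_apply, smul_eq_mul, h4, rate, dotProduct, Matrix.mulVec, grad,
      Matrix.of_apply]
    refine Finset.sum_congr rfl fun j _ => ?_
    simp [mul_comm]
  have h1 : r * ∫ z, P 3 z * rate v e (x₀ + r • z) = -∫ z, fderiv ℝ (P 3) z e * δ z := by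
    rw [← ibp (P_contDiff 1) (P_supp 2) cδ e, ← integral_const_mul]
    refine integral_congr_ae (Eventually.of_forall fun z => ?_)
    simp only [dδ]
    ring
  have hcont : Continuous fun z : V => nrm (v (x₀ + r • z) - c) :=
    nrm_cont.comp ((hv.continuous.comp (by fun_prop)).sub continuous_const)
  have hint : Integrable fun z => P 2 z * nrm (v (x₀ + r • z) - c) :=
    ((P_cont 2).mul hcont).integrable_of_hasCompactSupport (P_supp 1).mul_right
  have h2 : |∫ z, fderiv ℝ (P 3) z e * δ z| ≤ 6 * ∫ z, P 2 z * nrm (v (x₀ + r • z) - c) := by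
    rw [← integral_const_mul, ← Real.norm_eq_abs]
    refine norm_integral_le_of_norm_le (hint.const_mul _)
      (Eventually.of_forall fun z => ?_)
    rw [Real.norm_eq_abs, abs_mul, show P 3 = P (1 + 2) from rfl, P_fderiv 1 z e]
    rcases lt_or_ge (z ⬝ᵥ z) 1 with hz | hz
    · have hz1 := (nrm_lt_one hz).le
      have b1 : |z ⬝ᵥ e| ≤ 1 := (dot_le _ _).trans (mul_le_one₀ hz1 (nrm_nonneg _) he)
      have b2 : |δ z| ≤ nrm (v (x₀ + r • z) - c) := by
        have e1 : δ z = e ⬝ᵥ (v (x₀ + r • z) - c) := by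
          simp only [hδ, hw, dotProduct, Pi.sub_apply, Fin.sum_univ_three]
          ring
        rw [e1]
        refine (dot_le _ _).trans ?_
        exact mul_le_of_le_one_left (nrm_nonneg _) he
      have e3 : |-2 * (((1 : ℕ) : ℝ) + 2) * P (1 + 1) z * (z ⬝ᵥ e)| = 6 * P 2 z * |z ⬝ᵥ e| := by
        rw [abs_mul, abs_mul, abs_of_nonneg (P_nonneg (1 + 1) z)]
        norm_num
      rw [e3]
      have hp := P_nonneg 2 z
      calc 6 * P 2 z * |z ⬝ᵥ e| * |δ z| ≤ 6 * P 2 z * 1 * nrm (v (x₀ + r • z) - c) := by gcongr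
        _ = 6 * (P 2 z * nrm (v (x₀ + r • z) - c)) := by ring
    · have e3 : P (1 + 1) z = 0 := P_zero_of hz
      rw [e3]
      simp
  have h3 : |∫ z, P 3 z * rate v e (x₀ + r • z)| * r
      ≤ 6 * ∫ z, P 2 z * nrm (v (x₀ + r • z) - c) := by
    rw [← abs_of_pos hr, ← abs_mul, mul_comm, abs_of_pos hr, h1, abs_neg]
    exact h2
  rw [← le_div_iff₀ hr] at h3
  refine h3.trans (le_of_eq ?_)
  ring

/-- The average of the velocity over a ball of radius at most `π` is bounded by the energy. -/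
lemma int_far (hv : Continuous v) (hp : Periodic3 v) (x₀ c : V) {r E : ℝ} (hr : 0 < r)
    (hrπ : r ≤ Real.pi) (hE : 0 < E) (hE' : ∫ x in Dom, sq3 (v x - c) ≤ E) :
    ∫ z, P 2 z * nrm (v (x₀ + r • z) - c) ≤ 5 * (Real.sqrt E * r ^ (-(3 / 2) : ℝ)) := by
  set Q : Set V := Icc (fun _ => -1) (fun _ => 1) with hQ
  set g : V → ℝ := fun y => sq3 (v (y + x₀) - c) with hg
  have hgc : Continuous g := by
    have h1 : Continuous sq3 := (sq3_contDiff (n := 1)).continuous
    exact h1.comp ((hv.comp (by fun_prop)).sub continuous_const)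
  have hgp : Periodic3 g := by
    intro i x
    simp only [hg]
    rw [show x + Pi.single i (2 * Real.pi) + x₀ = (x + x₀) + Pi.single i (2 * Real.pi) by abel,
      hp i]
  have hcube : ∫ y in cube, g y ≤ E := by
    rw [integral_cube hgp, hg]
    have h2 : Periodic3 (fun y => sq3 (v y - c)) := by
      intro i x
      simp only
      rw [hp i x]
    exact (integral_translate h2 x₀).trans_le hE'
  have hsqn : ∀ z : V, nrm (v (x₀ + r • z) - c) ^ 2 = g (r • z) := by
    intro z
    rw [nrm_sq, hg]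
    simp only [sq3, dotProduct]
    rw [add_comm x₀]
    exact Finset.sum_congr rfl fun i _ => by ring
  have hQc : IsCompact Q := isCompact_Icc
  have hsc : ∫ z in Q, g (r • z) ≤ (r ^ 3)⁻¹ * E := by
    rw [MeasureTheory.Measure.setIntegral_comp_smul_of_pos volume g Q hr]
    simp only [Module.finrank_fintype_fun_eq_card, Fintype.card_fin, smul_eq_mul]
    refine mul_le_mul_of_nonneg_left ?_ (by positivity)
    refine le_trans ?_ hcube
    refine setIntegral_mono_set ?_ ?_ ?_
    · exact hgc.continuousOn.integrableOn_compact isCompact_Icc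
    · exact Eventually.of_forall fun y => sq3_nonneg _
    · refine Filter.Eventually.of_forall fun y hy => ?_
      obtain ⟨z, hz, rfl⟩ := hy
      refine ⟨fun i => ?_, fun i => ?_⟩
      · have := hz.1 i
        simp only [Pi.smul_apply, smul_eq_mul] at this ⊢
        nlinarith
      · have := hz.2 i
        simp only [Pi.smul_apply, smul_eq_mul] at this ⊢
        nlinarith
  set lam : ℝ := r ^ (3 / 2 : ℝ) / Real.sqrt E with hlam
  have hsE : 0 < Real.sqrt E := Real.sqrt_pos.2 hE
  have hr32 : 0 < r ^ (3 / 2 : ℝ) := Real.rpow_pos_of_pos hr _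
  have hlam0 : 0 < lam := by positivity
  have hcont : Continuous fun z : V => nrm (v (x₀ + r • z) - c) :=
    nrm_cont.comp ((hv.comp (by fun_prop)).sub continuous_const)
  have hint : Integrable fun z => P 2 z * nrm (v (x₀ + r • z) - c) :=
    ((P_cont 2).mul hcont).integrable_of_hasCompactSupport (P_supp 1).mul_right
  have hvolQ : volume.real Q = 8 := by
    rw [measureReal_def, hQ, Real.volume_Icc_pi_toReal (fun _ => by norm_num)]
    norm_num
  have h1 : ∫ z, P 2 z * nrm (v (x₀ + r • z) - c)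
      ≤ ∫ z in Q, (lam * g (r • z) + 1 / lam) / 2 := by
    have hz0 : ∀ z ∉ Q, P 2 z * nrm (v (x₀ + r • z) - c) = 0 := by
      intro z hz
      have : 1 ≤ z ⬝ᵥ z := by
        by_contra hlt
        push Not at hlt
        refine hz ⟨fun i => ?_, fun i => ?_⟩
        · have h2 := (abs_le.1 ((abs_le_nrm z i).trans (nrm_lt_one hlt).le)).1
          exact h2
        · exact (abs_le.1 ((abs_le_nrm z i).trans (nrm_lt_one hlt).le)).2
      have e2 : P 2 z = 0 := P_zero_of this
      rw [e2, zero_mul]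
    rw [← setIntegral_eq_integral_of_forall_compl_eq_zero hz0]
    refine setIntegral_mono_on hint.integrableOn ?_ measurableSet_Icc fun z _ => ?_
    · refine Continuous.integrableOn_Icc ?_
      exact ((continuous_const.mul (hgc.comp (by fun_prop))).add continuous_const).div_const 2
    · have hn := nrm_nonneg (v (x₀ + r • z) - c)
      have h2 : P 2 z * nrm (v (x₀ + r • z) - c) ≤ nrm (v (x₀ + r • z) - c) :=
        mul_le_of_le_one_left hn (P_le_one 2 z)
      refine h2.trans ?_
      rw [← hsqn z]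
      set n := nrm (v (x₀ + r • z) - c) with hn'
      have h3 : lam * n ^ 2 + 1 / lam - 2 * n = (lam * n - 1) ^ 2 / lam := by
        field_simp
        ring
      have h4 : 0 ≤ (lam * n - 1) ^ 2 / lam := by positivity
      linarith
  refine h1.trans ?_
  have h5 : ∫ z in Q, (lam * g (r • z) + 1 / lam) / 2
      = (lam * (∫ z in Q, g (r • z)) + 8 / lam) / 2 := by
    rw [integral_div, integral_add, integral_const_mul, setIntegral_const, hvolQ]
    · simp only [smul_eq_mul]
      ring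
    · exact ((hgc.comp (by fun_prop)).integrableOn_Icc).const_mul lam
    · exact integrableOn_const (by rw [hQ]; exact isCompact_Icc.measure_lt_top.ne)
  rw [h5]
  have hr3 : (r ^ 3 : ℝ) = r ^ (3 / 2 : ℝ) * r ^ (3 / 2 : ℝ) := by
    rw [← Real.rpow_add hr]
    norm_num
  have hneg : r ^ (-(3 / 2) : ℝ) = (r ^ (3 / 2 : ℝ))⁻¹ := Real.rpow_neg hr.le _
  rw [hneg]
  rw [hr3] at hsc
  set R := r ^ (3 / 2 : ℝ) with hR
  have h6 : lam * (∫ z in Q, g (r • z)) ≤ Real.sqrt E * R⁻¹ := by
    calc lam * (∫ z in Q, g (r • z)) ≤ lam * ((R * R)⁻¹ * E) := by gcongr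
      _ = Real.sqrt E * R⁻¹ := by
        rw [hlam]
        have : E = Real.sqrt E * Real.sqrt E := (Real.mul_self_sqrt hE.le).symm
        rw [this, Real.sqrt_mul_self hsE.le]
        field_simp
  have h7 : 8 / lam = 8 * (Real.sqrt E * R⁻¹) := by
    rw [hlam]
    field_simp
  have h8 : 0 ≤ Real.sqrt E * R⁻¹ := by positivity
  rw [h7]
  linarith

/-- The triple product. -/
lemma triple (w z e : V) : w ⬝ᵥ cross z e = z ⬝ᵥ cross e w := by
  simp only [cross, dotProduct, Fin.sum_univ_three, Matrix.cons_val_zero, Matrix.cons_val_one,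
    Matrix.cons_val]
  ring

/-- The derivative of the averages. -/
lemma A_near (hv : ContDiff ℝ 2 v) (hdiv : ∀ x, divergence v x = 0) {x₀ e : V} (he : nrm e ≤ 1)
    {L β Ω : ℝ} (hL : 0 < L) (hβ : 0 < β) (hΩ : 0 ≤ Ω)
    (hx : ∀ y, nrm (cross e (vort v y)) ≤ (nrm (y - x₀) / L) ^ β * Ω) {r : ℝ} (hr : 0 < r) :
    |r * ∫ z, P 3 z * fderiv ℝ (rate v e) (x₀ + r • z) z|
      ≤ 6 * ((r / L) ^ β * Ω * ∫ z, P 2 z) := by
  rw [rate_formula hv hdiv e x₀ r, abs_mul, abs_of_pos (by norm_num : (0 : ℝ) < 6)]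
  refine mul_le_mul_of_nonneg_left ?_ (by norm_num)
  rw [← integral_const_mul, ← Real.norm_eq_abs]
  refine norm_integral_le_of_norm_le ((P_integrable 1).const_mul _)
    (Eventually.of_forall fun z => ?_)
  rw [Real.norm_eq_abs, abs_mul, abs_mul, abs_of_nonneg (P_nonneg 2 z)]
  show |z ⬝ᵥ e| * P 2 z * |vort v (x₀ + r • z) ⬝ᵥ cross z e| ≤ (r / L) ^ β * Ω * P 2 z
  rcases lt_or_ge (z ⬝ᵥ z) 1 with hz | hz
  · have hz1 := (nrm_lt_one hz).le
    have b1 : |z ⬝ᵥ e| ≤ 1 := (dot_le _ _).trans (mul_le_one₀ hz1 (nrm_nonneg _) he)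
    have b2 : |vort v (x₀ + r • z) ⬝ᵥ cross z e| ≤ (r / L) ^ β * Ω := by
      rw [triple]
      refine (dot_le _ _).trans ?_
      have h1 := hx (x₀ + r • z)
      rw [add_sub_cancel_left, nrm_smul, abs_of_pos hr] at h1
      have h2 : (r * nrm z / L) ^ β ≤ (r / L) ^ β := by
        refine Real.rpow_le_rpow (by have := nrm_nonneg z; positivity) ?_ hβ.le
        refine div_le_div_of_nonneg_right ?_ hL.le
        exact mul_le_of_le_one_right hr.le hz1
      calc nrm z * nrm (cross e (vort v (x₀ + r • z)))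
          ≤ 1 * ((r / L) ^ β * Ω) := by
            have := nrm_nonneg (cross e (vort v (x₀ + r • z)))
            have h3 := h1.trans (mul_le_mul_of_nonneg_right h2 hΩ)
            gcongr
        _ = _ := one_mul _
    have hp := P_nonneg 2 z
    have hq : 0 ≤ (r / L) ^ β * Ω := by positivity
    calc |z ⬝ᵥ e| * P 2 z * |vort v (x₀ + r • z) ⬝ᵥ cross z e|
        ≤ 1 * P 2 z * ((r / L) ^ β * Ω) := by gcongr
      _ = _ := by ring
  · have e2 : P 2 z = 0 := P_zero_of hz
    rw [e2]
    simp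

/-- The bound of the rate at all radii. -/
theorem rate_le (hv : ContDiff ℝ 2 v) (hdiv : ∀ x, divergence v x = 0) (hp : Periodic3 v)
    {x₀ e c : V} (he : nrm e ≤ 1) {L β Ω E : ℝ} (hL : 0 < L) (hβ : 0 < β) (hΩ : 0 ≤ Ω)
    (hx : ∀ y, nrm (cross e (vort v y)) ≤ (nrm (y - x₀) / L) ^ β * Ω) (hE : 0 < E)
    (hE' : ∫ x in Dom, sq3 (v x - c) ≤ E) {r : ℝ} (hr : 0 < r) (hrπ : r ≤ Real.pi) :
    (∫ z, P 3 z) * |rate v e x₀|
      ≤ 30 * (Real.sqrt E * r ^ (-(5 / 2) : ℝ))
        + 6 / β * (∫ z, P 2 z) * (Ω * (r / L) ^ β) := by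
  set I2 := ∫ z, P 2 z with hI2
  set I3 := ∫ z, P 3 z with hI3
  have c2 : 0 < I2 := P_int_pos 1
  have c3 : 0 < I3 := P_int_pos 2
  set A : ℝ → ℝ := fun r => ∫ z, P 3 z * rate v e (x₀ + r • z) with hA
  set A' : ℝ → ℝ := fun r => ∫ z, P 3 z * fderiv ℝ (rate v e) (x₀ + r • z) z with hA'
  have hAd : ∀ r, HasDerivAt A (A' r) r := fun r =>
    param_deriv (P_cont 3) (P_supp 2) (rate_contDiff hv e) x₀ r
  have hA0 : A 0 = I3 * rate v e x₀ := by
    simp only [hA, zero_smul, add_zero]
    rw [integral_mul_const]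
  have far : |A r| ≤ 30 * (Real.sqrt E * r ^ (-(5 / 2) : ℝ)) := by
    refine (A_far hv c he hr).trans ?_
    have h1 := int_far hv.continuous hp x₀ c hr hrπ hE hE'
    calc 6 / r * ∫ z, P 2 z * nrm (v (x₀ + r • z) - c)
        ≤ 6 / r * (5 * (Real.sqrt E * r ^ (-(3 / 2) : ℝ))) := by gcongr
      _ = 30 * (Real.sqrt E * (r ^ (-(3 / 2) : ℝ) * r⁻¹)) := by ring
      _ = _ := by
        rw [← Real.rpow_neg_one, ← Real.rpow_add hr]
        norm_num
  have near : |A r - A 0| ≤ 6 / β * I2 * (Ω * (r / L) ^ β) := by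
    obtain ⟨s, hs, hs2⟩ := exists_ratio_hasDerivAt_eq_ratio_slope A A' hr
      (fun r _ => (hAd r).continuousAt.continuousWithinAt) (fun r _ => hAd r)
      (fun s => s ^ β) (fun s => β * s ^ (β - 1))
      (fun s _ => (Real.continuousAt_rpow_const _ _ (Or.inr hβ.le)).continuousWithinAt)
      (fun s hs => Real.hasDerivAt_rpow_const (Or.inl hs.1.ne'))
    have hs0 := hs.1
    have h0 : (0 : ℝ) ^ β = 0 := Real.zero_rpow hβ.ne'
    simp only [h0, sub_zero] at hs2
    -- hs2 : r ^ β * A' s = (A r - A 0) * (β * s ^ (β - 1))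
    have h1 := A_near hv hdiv he hL hβ hΩ hx hs0
    have hsb : 0 < s ^ β := Real.rpow_pos_of_pos hs0 _
    have hrb : 0 < r ^ β := Real.rpow_pos_of_pos hr _
    have hLb : 0 < L ^ β := Real.rpow_pos_of_pos hL _
    have e1 : s ^ (β - 1) = s ^ β / s := by rw [Real.rpow_sub hs0, Real.rpow_one]
    rw [e1] at hs2
    have h2 : (A r - A 0) * (β * s ^ β) = r ^ β * (s * A' s) := by
      field_simp at hs2
      linarith
    have h3 : |A r - A 0| * (β * s ^ β) ≤ r ^ β * (6 * ((s / L) ^ β * Ω * I2)) := by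
      rw [← abs_of_pos (by positivity : 0 < β * s ^ β), ← abs_mul, h2, abs_mul, abs_of_pos hrb]
      exact mul_le_mul_of_nonneg_left h1 hrb.le
    rw [Real.div_rpow hs0.le hL.le] at h3
    rw [Real.div_rpow hr.le hL.le]
    refine le_of_mul_le_mul_right (h3.trans (le_of_eq ?_)) (by positivity : 0 < β * s ^ β)
    field_simp
  have h1 : |A 0| ≤ |A r| + |A r - A 0| := by
    have := abs_sub_abs_le_abs_sub (A 0) (A r)
    rw [abs_sub_comm (A 0) (A r)] at this
    linarith
  rw [← abs_of_pos c3, ← abs_mul, ← hA0]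
  linarith

end Pool.Agent.R462.EU
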